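import Pool.Agent.W2helper32.LP.Stm

set_option autoImplicit false

namespace Pool.Agent.W2helper32.LP

open Finset Filter Topology

variable {V : Type}

/-- `w` is a stress-like function supported on `G`. -/
def Supp (G : SimpleGraph V) (w : V → V → ℝ) : Prop :=
  (∀ i j, w i j = w j i) ∧ ∀ i j, ¬ G.Adj i j → w i j = 0

/-- the load of `w` on the points. -/
def load [Fintype V] (x : V → ℝ) (w : V → V → ℝ) (i : V) : ℝ := ∑ j, w i j * (x i - x j)

theorem built_mem [DecidableEq V] {S : Finset V} {G : SimpleGraph V} (h : Built S G) :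
    (∀ i j, G.Adj i j → i ∈ S ∧ j ∈ S) ∧ ∀ i ∈ S, ∃ j, G.Adj i j := by
  induction h with
  | edge a b h =>
    constructor
    · intro i j hij
      rw [SimpleGraph.fromEdgeSet_adj] at hij
      obtain ⟨h1, h2⟩ := hij
      simp only [Set.mem_singleton_iff, Sym2.eq_iff] at h1
      rcases h1 with ⟨rfl, rfl⟩ | ⟨rfl, rfl⟩ <;> simp
    · intro i hi
      simp only [mem_insert, mem_singleton] at hi
      rcases hi with rfl | rfl
      · exact ⟨b, by simp [h]⟩
      · exact ⟨a, by simp [h.symm, Sym2.eq_swap]⟩
  | add S G v a b hG hv ha hb hab ih =>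
    have hva : v ≠ a := fun h => hv (h ▸ ha)
    constructor
    · intro i j hij
      rw [SimpleGraph.sup_adj, SimpleGraph.fromEdgeSet_adj] at hij
      rcases hij with hij | ⟨h1, h2⟩
      · obtain ⟨h3, h4⟩ := ih.1 i j hij
        exact ⟨mem_insert_of_mem h3, mem_insert_of_mem h4⟩
      · simp only [Set.mem_insert_iff, Set.mem_singleton_iff, Sym2.eq_iff] at h1
        rcases h1 with (⟨rfl, rfl⟩ | ⟨rfl, rfl⟩) | (⟨rfl, rfl⟩ | ⟨rfl, rfl⟩) <;>
          simp [ha, hb]
    · intro i hi
      rcases mem_insert.1 hi with rfl | hi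
      · exact ⟨a, by simp [hva]⟩
      · obtain ⟨j, hj⟩ := ih.2 i hi
        exact ⟨j, by simp [hj]⟩
  | swap S U G B B' h h1 h2 hB hB' ih ihB ihB' =>
    have hUS : U ⊆ S := by
      intro i hi
      obtain ⟨j, hj⟩ := ihB.2 i hi
      exact (ih.1 i j (by simp [hj])).1
    constructor
    · intro i j hij
      rw [SimpleGraph.sup_adj] at hij
      rcases hij with hij | hij
      · exact ih.1 i j (by simp [hij])
      · obtain ⟨h3, h4⟩ := ihB'.1 i j hij
        exact ⟨hUS h3, hUS h4⟩
    · intro i hi
      by_cases hiU : i ∈ U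
      · obtain ⟨j, hj⟩ := ihB'.2 i hiU
        exact ⟨j, by simp [hj]⟩
      · obtain ⟨j, hj⟩ := ih.2 i hi
        rw [SimpleGraph.sup_adj] at hj
        rcases hj with hj | hj
        · exact ⟨j, by simp [hj]⟩
        · exact absurd (ihB.1 i j hj).1 hiU

section
variable [Fintype V]

theorem load_add (x : V → ℝ) (w w' : V → V → ℝ) (i : V) :
    load x (fun i j => w i j + w' i j) i = load x w i + load x w' i := by
  simp only [load, ← sum_add_distrib]
  exact sum_congr rfl fun j _ => by ring

theorem load_sub (x : V → ℝ) (w w' : V → V → ℝ) (i : V) :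
    load x (fun i j => w i j - w' i j) i = load x w i - load x w' i := by
  simp only [load, ← sum_sub_distrib]
  exact sum_congr rfl fun j _ => by ring

theorem antisymm_sum (f : V → V → ℝ) (h : ∀ i j, f i j = - f j i) : ∑ i, ∑ j, f i j = 0 := by
  have h1 : ∑ i, ∑ j, f i j = - ∑ i, ∑ j, f i j := by
    conv_lhs => rw [sum_comm]
    rw [← sum_neg_distrib]
    refine sum_congr rfl fun i _ => ?_
    rw [← sum_neg_distrib]
    exact sum_congr rfl fun j _ => h j i
  linarith

theorem sum_load (x : V → ℝ) {w : V → V → ℝ} (hw : ∀ i j, w i j = w j i) :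
    ∑ i, load x w i = 0 := by
  apply antisymm_sum
  intro i j
  rw [hw i j]; ring

theorem moment_load (x y : V → ℝ) {w : V → V → ℝ} (hw : ∀ i j, w i j = w j i) :
    ∑ i, (x i * load y w i - y i * load x w i) = 0 := by
  have h : ∀ i, x i * load y w i - y i * load x w i
      = ∑ j, (x i * (w i j * (y i - y j)) - y i * (w i j * (x i - x j))) := by
    intro i
    simp only [load, mul_sum, sum_sub_distrib]
  simp only [h]
  apply antisymm_sum
  intro i j
  rw [hw i j]; ring

/-- The load of a function supported on a graph with vertices in `U` vanishes outside `U`. -/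
theorem load_off {G : SimpleGraph V} {U : Finset V} (hG : ∀ i j, G.Adj i j → i ∈ U ∧ j ∈ U)
    (x : V → ℝ) {w : V → V → ℝ} (hw : ∀ i j, ¬ G.Adj i j → w i j = 0) {i : V} (hi : i ∉ U) :
    load x w i = 0 := by
  unfold load
  refine sum_eq_zero fun j _ => ?_
  rw [hw i j fun h => hi (hG i j h).1, zero_mul]

/-- Every equilibrium load on `S` is resolved by `G`. -/
def Res (S : Finset V) (G : SimpleGraph V) (x y : V → ℝ) : Prop :=
  ∀ f g : V → ℝ, (∀ i, i ∉ S → f i = 0 ∧ g i = 0) → ∑ i, f i = 0 → ∑ i, g i = 0 →
    ∑ i, (x i * g i - y i * f i) = 0 →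
    ∃ w : V → V → ℝ, Supp G w ∧ (∀ i, load x w i = f i) ∧ ∀ i, load y w i = g i

variable [DecidableEq V]

/-- weight `c` on the edge `ab`. -/
def ew (a b : V) (c : ℝ) (i j : V) : ℝ := if (i = a ∧ j = b) ∨ (i = b ∧ j = a) then c else 0

theorem ew_symm (a b : V) (c : ℝ) (i j : V) : ew a b c i j = ew a b c j i := by
  unfold ew
  congr 1
  apply propext
  tauto

theorem load_ew (x : V → ℝ) {a b : V} (hab : a ≠ b) (c : ℝ) (i : V) :
    load x (ew a b c) i = (if i = a then c * (x a - x b) else 0) +
      (if i = b then c * (x b - x a) else 0) := by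
  unfold load
  by_cases h1 : i = a
  · subst h1
    rw [sum_eq_single b]
    · simp [ew, hab]
    · intro j _ hj
      simp [ew, hj, hab]
    · simp
  · by_cases h2 : i = b
    · subst h2
      rw [sum_eq_single a]
      · simp [ew, h1]
      · intro j _ hj
        simp [ew, hj, h1]
      · simp
    · rw [if_neg h1, if_neg h2, add_zero]
      refine sum_eq_zero fun j _ => ?_
      simp [ew, h1, h2]

theorem res_built {x y : V → ℝ} (hx : GenPos x y) (hd : ∀ i j, i ≠ j → x i ≠ x j ∨ y i ≠ y j)
    {S : Finset V} {G : SimpleGraph V} (h : Built S G) : Res S G x y := by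
  induction h with
  | edge a b h =>
    intro f g h0 hf hg hm
    have hs : ∀ F : V → ℝ, (∀ i, i ∉ ({a, b} : Finset V) → F i = 0) → ∑ i, F i = F a + F b := by
      intro F hF
      rw [← sum_subset (subset_univ {a, b}) (fun i _ hi => hF i hi), sum_pair h]
    rw [hs f fun i hi => (h0 i hi).1] at hf
    rw [hs g fun i hi => (h0 i hi).2] at hg
    rw [hs _ fun i hi => by rw [(h0 i hi).1, (h0 i hi).2]; ring] at hm
    have hfb : f b = - f a := by linarith
    have hgb : g b = - g a := by linarith
    rw [hfb, hgb] at hm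
    have hmm : (x a - x b) * g a = (y a - y b) * f a := by linarith
    have hpos : 0 < (x a - x b) ^ 2 + (y a - y b) ^ 2 := by
      rcases hd a b h with h1 | h1
      · have : 0 < (x a - x b) ^ 2 := by have := sub_ne_zero.2 h1; positivity
        positivity
      · have : 0 < (y a - y b) ^ 2 := by have := sub_ne_zero.2 h1; positivity
        positivity
    set c : ℝ := (f a * (x a - x b) + g a * (y a - y b)) / ((x a - x b) ^ 2 + (y a - y b) ^ 2)
      with hc
    have hc1 : c * (x a - x b) = f a := by
      rw [hc]; field_simp; linear_combination (y a - y b) * hmm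
    have hc2 : c * (y a - y b) = g a := by
      rw [hc]; field_simp; linear_combination (-(x a - x b)) * hmm
    refine ⟨ew a b c, ⟨ew_symm a b c, ?_⟩, ?_, ?_⟩
    · intro i j hij
      unfold ew
      rw [if_neg]
      rintro (⟨rfl, rfl⟩ | ⟨rfl, rfl⟩)
      · exact hij (by simp [h])
      · exact hij (by simp [h.symm, Sym2.eq_swap])
    · intro i
      rw [load_ew x h]
      by_cases h1 : i = a
      · subst h1; simp [h, hc1]
      · by_cases h2 : i = b
        · subst h2; simp [h1]; linarith
        · simp [h1, h2, (h0 i (by simp [h1, h2])).1]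
    · intro i
      rw [load_ew y h]
      by_cases h1 : i = a
      · subst h1; simp [h, hc2]
      · by_cases h2 : i = b
        · subst h2; simp [h1]; linarith
        · simp [h1, h2, (h0 i (by simp [h1, h2])).2]
  | add S G v a b hG hv ha hb hab ih =>
    have hva : v ≠ a := fun h => hv (h ▸ ha)
    have hvb : v ≠ b := fun h => hv (h ▸ hb)
    intro f g h0 hf hg hm
    have hD : ori x y v a b ≠ 0 := hx v a b hva hab hvb
    set D := ori x y v a b with hDdef
    -- α (p_v - p_a) + β (p_v - p_b) = f_v
    set α : ℝ := -(f v * (y b - y v) - g v * (x b - x v)) / D with hα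
    set β : ℝ := -(g v * (x a - x v) - f v * (y a - y v)) / D with hβ
    have e1 : α * (x v - x a) + β * (x v - x b) = f v := by
      rw [hα, hβ]
      field_simp
      rw [hDdef]; unfold ori; ring
    have e2 : α * (y v - y a) + β * (y v - y b) = g v := by
      rw [hα, hβ]
      field_simp
      rw [hDdef]; unfold ori; ring
    set w0 : V → V → ℝ := fun i j => ew v a α i j + ew v b β i j with hw0
    have hw0s : ∀ i j, w0 i j = w0 j i := by
      intro i j
      simp only [hw0]
      rw [ew_symm v a, ew_symm v b]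
    have hl : ∀ z : V → ℝ, ∀ i, load z w0 i = load z (ew v a α) i + load z (ew v b β) i :=
      fun z i => load_add z _ _ i
    obtain ⟨w1, hw1, hw1x, hw1y⟩ := ih (fun i => f i - load x w0 i) (fun i => g i - load y w0 i)
      (by
        intro i hi
        by_cases hiv : i = v
        · subst hiv
          rw [hl, hl, load_ew x hva, load_ew x hvb, load_ew y hva, load_ew y hvb]
          simp only [hva, hvb, if_true, if_false, add_zero]
          constructor <;> linarith
        · have hia : i ≠ a := fun h => hi (h ▸ ha)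
          have hib : i ≠ b := fun h => hi (h ▸ hb)
          rw [hl, hl, load_ew x hva, load_ew x hvb, load_ew y hva, load_ew y hvb]
          have := h0 i (by simp [hiv, hi])
          simp [hiv, hia, hib, this.1, this.2])
      (by rw [sum_sub_distrib, hf, sum_load x hw0s]; ring)
      (by rw [sum_sub_distrib, hg, sum_load y hw0s]; ring)
      (by
        have h1 := moment_load x y hw0s
        have h2 : ∑ i, (x i * (g i - load y w0 i) - y i * (f i - load x w0 i))
            = ∑ i, (x i * g i - y i * f i) - ∑ i, (x i * load y w0 i - y i * load x w0 i) := by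
          rw [← sum_sub_distrib]
          exact sum_congr rfl fun i _ => by ring
        rw [h2, hm, h1, sub_zero])
    refine ⟨fun i j => w0 i j + w1 i j, ⟨?_, ?_⟩, ?_, ?_⟩
    · intro i j
      simp only [hw0s i j, hw1.1 i j]
    · intro i j hij
      rw [SimpleGraph.sup_adj, not_or] at hij
      simp only [hw1.2 i j hij.1, hw0, add_zero]
      have h3 := hij.2
      rw [SimpleGraph.fromEdgeSet_adj] at h3
      have e3 : ew v a α i j = 0 := by
        unfold ew
        rw [if_neg]
        rintro (⟨rfl, rfl⟩ | ⟨rfl, rfl⟩)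
        · exact h3 ⟨by simp, hva⟩
        · exact h3 ⟨by simp [Sym2.eq_swap], hva.symm⟩
      have e4 : ew v b β i j = 0 := by
        unfold ew
        rw [if_neg]
        rintro (⟨rfl, rfl⟩ | ⟨rfl, rfl⟩)
        · exact h3 ⟨by simp, hvb⟩
        · exact h3 ⟨by simp [Sym2.eq_swap], hvb.symm⟩
      rw [e3, e4, add_zero]
    · intro i
      rw [load_add, hw1x]; ring
    · intro i
      rw [load_add, hw1y]; ring
  | swap S U G B B' h h1 h2 hB hB' ih ihB ihB' =>
    intro f g h0 hf hg hm
    classical
    obtain ⟨w, hw, hwx, hwy⟩ := ih f g h0 hf hg hm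
    set wG : V → V → ℝ := fun i j => if G.Adj i j then w i j else 0 with hwG
    set wB : V → V → ℝ := fun i j => if B.Adj i j then w i j else 0 with hwB
    have hGs : Supp G wG := ⟨fun i j => by simp only [hwG, G.adj_comm i j, hw.1 i j],
      fun i j hij => by simp [hwG, hij]⟩
    have hBs : Supp B wB := ⟨fun i j => by simp only [hwB, B.adj_comm i j, hw.1 i j],
      fun i j hij => by simp [hwB, hij]⟩
    have hsum : ∀ i j, w i j = wG i j + wB i j := by
      intro i j
      simp only [hwG, hwB]
      by_cases hi : G.Adj i j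
      · have : ¬ B.Adj i j := fun hb => (SimpleGraph.disjoint_left.1 h1) i j hi hb
        simp [hi, this]
      · by_cases hi' : B.Adj i j
        · simp [hi, hi']
        · simp [hi, hi', hw.2 i j (by simp [hi, hi'])]
    have hsplit : ∀ z : V → ℝ, ∀ i, load z w i = load z wG i + load z wB i := by
      intro z i
      rw [← load_add]
      unfold load
      exact sum_congr rfl fun j _ => by rw [hsum]
    obtain ⟨w', hw', hw'x, hw'y⟩ := ihB' (load x wB) (load y wB)
      (fun i hi => ⟨load_off (built_mem hB).1 x hBs.2 hi, load_off (built_mem hB).1 y hBs.2 hi⟩)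
      (sum_load x hBs.1) (sum_load y hBs.1) (moment_load x y hBs.1)
    refine ⟨fun i j => wG i j + w' i j, ⟨?_, ?_⟩, ?_, ?_⟩
    · intro i j
      simp only [hGs.1 i j, hw'.1 i j]
    · intro i j hij
      rw [SimpleGraph.sup_adj, not_or] at hij
      simp only [hGs.2 i j hij.1, hw'.2 i j hij.2, add_zero]
    · intro i
      rw [load_add, hw'x, ← hsplit, hwx]
    · intro i
      rw [load_add, hw'y, ← hsplit, hwy]

/-- No nonzero stress. -/
def Ind (G : SimpleGraph V) (x y : V → ℝ) : Prop :=
  ∀ w : V → V → ℝ, Supp G w → (∀ i, load x w i = 0) → (∀ i, load y w i = 0) →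
    ∀ i j, w i j = 0

theorem ind_built {x y : V → ℝ} (hx : GenPos x y) (hd : ∀ i j, i ≠ j → x i ≠ x j ∨ y i ≠ y j)
    {S : Finset V} {G : SimpleGraph V} (h : Built S G) : Ind G x y := by
  induction h with
  | edge a b h =>
    intro w hw hwx hwy
    have hz : ∀ i j, ¬ ((i = a ∧ j = b) ∨ (i = b ∧ j = a)) → w i j = 0 := by
      intro i j hij
      apply hw.2
      rw [SimpleGraph.fromEdgeSet_adj]
      rintro ⟨h1, h2⟩
      simp only [Set.mem_singleton_iff, Sym2.eq_iff] at h1
      exact hij h1
    have hwab : w a b = 0 := by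
      have e1 := hwx a
      have e2 := hwy a
      unfold load at e1 e2
      rw [sum_eq_single b (fun j _ hj => by rw [hz a j (by tauto), zero_mul]) (by simp)] at e1 e2
      rcases hd a b h with h1 | h1
      · exact (mul_eq_zero.1 e1).resolve_right (sub_ne_zero.2 h1)
      · exact (mul_eq_zero.1 e2).resolve_right (sub_ne_zero.2 h1)
    intro i j
    by_cases hij : (i = a ∧ j = b) ∨ (i = b ∧ j = a)
    · rcases hij with ⟨rfl, rfl⟩ | ⟨rfl, rfl⟩
      · exact hwab
      · rw [hw.1]; exact hwab
    · exact hz i j hij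
  | add S G v a b hG hv ha hb hab ih =>
    have hva : v ≠ a := fun h => hv (h ▸ ha)
    have hvb : v ≠ b := fun h => hv (h ▸ hb)
    intro w hw hwx hwy
    have hvz : ∀ j, j ≠ a → j ≠ b → w v j = 0 := by
      intro j hja hjb
      apply hw.2
      rw [SimpleGraph.sup_adj, SimpleGraph.fromEdgeSet_adj, not_or]
      refine ⟨fun h => hv ((built_mem hG).1 v j h).1, ?_⟩
      rintro ⟨h1, h2⟩
      simp only [Set.mem_insert_iff, Set.mem_singleton_iff, Sym2.eq_iff] at h1
      tauto
    have hsum : ∀ z : V → ℝ, load z w v = w v a * (z v - z a) + w v b * (z v - z b) := by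
      intro z
      unfold load
      rw [← sum_subset (subset_univ {a, b}) (fun j _ hj => ?_), sum_pair hab]
      simp only [mem_insert, mem_singleton, not_or] at hj
      rw [hvz j hj.1 hj.2, zero_mul]
    have e1 := hwx v
    have e2 := hwy v
    rw [hsum] at e1 e2
    have hD : ori x y v a b ≠ 0 := hx v a b hva hab hvb
    have hwa : w v a = 0 := by
      have : w v a * ori x y v a b = 0 := by
        unfold ori; linear_combination (-(y b - y v)) * e1 + (x b - x v) * e2
      exact (mul_eq_zero.1 this).resolve_right hD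
    have hwb : w v b = 0 := by
      have : w v b * ori x y v a b = 0 := by
        unfold ori; linear_combination (y a - y v) * e1 - (x a - x v) * e2
      exact (mul_eq_zero.1 this).resolve_right hD
    refine ih w ⟨hw.1, ?_⟩ hwx hwy
    intro i j hij
    by_cases hsup : (G ⊔ SimpleGraph.fromEdgeSet {s(v, a), s(v, b)}).Adj i j
    · rw [SimpleGraph.sup_adj] at hsup
      rcases hsup with h | h
      · exact absurd h hij
      · rw [SimpleGraph.fromEdgeSet_adj] at h
        obtain ⟨h1, h2⟩ := h
        simp only [Set.mem_insert_iff, Set.mem_singleton_iff, Sym2.eq_iff] at h1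
        rcases h1 with (⟨rfl, rfl⟩ | ⟨rfl, rfl⟩) | (⟨rfl, rfl⟩ | ⟨rfl, rfl⟩)
        · exact hwa
        · rw [hw.1]; exact hwa
        · exact hwb
        · rw [hw.1]; exact hwb
    · exact hw.2 i j hsup
  | swap S U G B B' h h1 h2 hB hB' ih ihB ihB' =>
    intro w hw hwx hwy
    classical
    set wG : V → V → ℝ := fun i j => if G.Adj i j then w i j else 0 with hwG
    set wB : V → V → ℝ := fun i j => if B'.Adj i j then w i j else 0 with hwB
    have hGs : Supp G wG := ⟨fun i j => by simp only [hwG, G.adj_comm i j, hw.1 i j],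
      fun i j hij => by simp [hwG, hij]⟩
    have hBs : Supp B' wB := ⟨fun i j => by simp only [hwB, B'.adj_comm i j, hw.1 i j],
      fun i j hij => by simp [hwB, hij]⟩
    have hsum : ∀ i j, w i j = wG i j + wB i j := by
      intro i j
      simp only [hwG, hwB]
      by_cases hi : G.Adj i j
      · have : ¬ B'.Adj i j := fun hb => (SimpleGraph.disjoint_left.1 h2) i j hi hb
        simp [hi, this]
      · by_cases hi' : B'.Adj i j
        · simp [hi, hi']
        · simp [hi, hi', hw.2 i j (by simp [hi, hi'])]
    have hsplit : ∀ z : V → ℝ, ∀ i, load z w i = load z wG i + load z wB i := by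
      intro z i
      rw [← load_add]
      unfold load
      exact sum_congr rfl fun j _ => by rw [hsum]
    obtain ⟨w', hw', hw'x, hw'y⟩ := res_built hx hd hB (load x wB) (load y wB)
      (fun i hi => ⟨load_off (built_mem hB').1 x hBs.2 hi, load_off (built_mem hB').1 y hBs.2 hi⟩)
      (sum_load x hBs.1) (sum_load y hBs.1) (moment_load x y hBs.1)
    have hall := ih (fun i j => wG i j + w' i j)
      ⟨fun i j => by simp only [hGs.1 i j, hw'.1 i j], fun i j hij => by
        rw [SimpleGraph.sup_adj, not_or] at hij
        simp only [hGs.2 i j hij.1, hw'.2 i j hij.2, add_zero]⟩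
      (fun i => by rw [load_add, hw'x, ← hsplit, hwx])
      (fun i => by rw [load_add, hw'y, ← hsplit, hwy])
    have hG0 : ∀ i j, wG i j = 0 := by
      intro i j
      by_cases hi : G.Adj i j
      · have hb : ¬ B.Adj i j := fun hb => (SimpleGraph.disjoint_left.1 h1) i j hi hb
        have := hall i j
        simp only [hw'.2 i j hb, add_zero] at this
        exact this
      · exact hGs.2 i j hi
    have hload : ∀ z : V → ℝ, (∀ i, load z w i = 0) → ∀ i, load z wB i = 0 := by
      intro z hz i
      have h3 := hsplit z i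
      have h4 : load z wG i = 0 := by
        unfold load
        exact sum_eq_zero fun j _ => by rw [hG0, zero_mul]
      rw [hz i, h4] at h3
      linarith
    have hB0 := ihB' wB hBs (hload x hwx) (hload y hwy)
    intro i j
    rw [hsum, hG0, hB0, add_zero]

end

theorem p_stat : P_STAT := by
  intro V _ _ S G x y h hx hd w hw1 hw2 hw3 hw4
  exact ind_built hx hd h w ⟨hw1, hw2⟩ hw3 hw4

end Pool.Agent.W2helper32.LP
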