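import Mathlib

/-!
Project LP (helper32), MP_27dab6_co (standard, uncovered): disk packings with generic radii.

MAIN: a planar Laman graph which is built from an edge by
 (I) adding a vertex joined to two arbitrary old vertices,
 (II) exchanging a block `B` on the vertex set `U` for another built block `B'` on `U`,
is the contact graph of a disk packing with algebraically independent radii.
(Planar is used in the form: `G` is the contact graph of SOME disk packing, Koebe.)

Proof: invert the packing in a far generic point (P_INV): then no three centres are on a line.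
Built graphs have no equilibrium stress when no three vertices are on a line (P_STAT).
Then the radii can be prescribed freely near the given ones (P_IFT), and generic vectors are
dense (P_GEN).
-/

set_option autoImplicit false

namespace Pool.Agent.W2helper32.LP

open Finset Filter Topology

/-- Disks with centres `(x v, y v)` and radii `r v` form a packing (disjoint interiors) whose
contact graph is exactly `G`. -/
def PackXY {V : Type} (G : SimpleGraph V) (x y r : V → ℝ) : Prop :=
  (∀ v, 0 < r v) ∧ ∀ u v, u ≠ v →
    (r u + r v) ^ 2 ≤ (x u - x v) ^ 2 + (y u - y v) ^ 2 ∧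
    (G.Adj u v ↔ (x u - x v) ^ 2 + (y u - y v) ^ 2 = (r u + r v) ^ 2)

/-- Twice the signed area of the triangle `i j k`. -/
def ori {V : Type} (x y : V → ℝ) (i j k : V) : ℝ :=
  (x j - x i) * (y k - y i) - (x k - x i) * (y j - y i)

/-- No three points are on a line. -/
def GenPos {V : Type} (x y : V → ℝ) : Prop :=
  ∀ i j k, i ≠ j → j ≠ k → i ≠ k → ori x y i j k ≠ 0

/-- The framework `(G, (x,y))` has no nonzero equilibrium stress. -/
def Indep {V : Type} [Fintype V] (G : SimpleGraph V) (x y : V → ℝ) : Prop :=
  ∀ w : V → V → ℝ, (∀ i j, w i j = w j i) → (∀ i j, ¬ G.Adj i j → w i j = 0) →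
    (∀ i, ∑ j, w i j * (x i - x j) = 0) → (∀ i, ∑ j, w i j * (y i - y j) = 0) →
    ∀ i j, w i j = 0

/-- P_INV. Inversion of a packing in a far generic point.
PROOF. For a point `q = (a, b)` outside all closed disks put `z_i = c_i - q`,
`P_i = |z_i|^2 - r_i^2 > 0`, new centre `z_i / P_i`, new radius `r_i / P_i`. Then
`|c'_i - c'_j|^2 - (r'_i + r'_j)^2 = (|c_i - c_j|^2 - (r_i + r_j)^2) / (P_i P_j)` (field_simp;
ring), so `PackXY` is preserved. The new centres of `i, j, k` are on a line iff
`D(q) := P_k (z_i x z_j) + P_i (z_j x z_k) + P_j (z_k x z_i) = 0` (`x` = cross product).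
Take `q = (t * cos s, t * sin s)` or simply `q = (t, m t)` with a slope `m` different from the
finitely many slopes of the lines `c_i c_j` (and from vertical), and let `t → ∞`: `D(t, m t)` is a
polynomial in `t` of degree ≤ 2, the coefficient of `t^2` is `-(1+m^2) * ori i j k`. If
`ori i j k = 0` the three centres are on a line `c_i + λ w`; say (after a permutation) the
parameters are `λ_1 < λ_2 < λ_3`, `h = |c_2-c_1| ≥ r_1 + r_2`, `k = |c_3-c_2| ≥ r_2 + r_3`; then
`D(q) = ± (distance-type linear form of q from the line) * κ`,
`κ = h (k^2 - r_3^2) + k (h^2 - r_1^2) + r_2^2 (h + k) > 0`, and the linear form restricted to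
`(t, m t)` is a nonconstant polynomial because `m` is not the slope of the line.
So every `D_{ijk}(t, m t)` is a nonzero polynomial in `t` (`Polynomial.eventually_no_roots` or
finitely many roots) and a large `t` works for all triples and is outside all disks. -/
def P_INV : Prop :=
  ∀ (V : Type) [Fintype V] (G : SimpleGraph V) (x y r : V → ℝ), PackXY G x y r →
    ∃ x' y' r' : V → ℝ, PackXY G x' y' r' ∧ GenPos x' y'

/-- P_IFT. If a packing has contact graph exactly `G` and its framework of centres has no
nonzero stress, then all radii near the given ones occur.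
PROOF. Let `E = G.edgeSet`, choose `src, tgt : E → V` with `s(src e, tgt e) = e` (e.g.
`Quot.out`). The map `F : (V → ℝ) × (V → ℝ) × (V → ℝ) → (E → ℝ) × (V → ℝ)`,
`F (x, y, r) = ((x_src - x_tgt)^2 + (y_src - y_tgt)^2 - (r_src + r_tgt)^2, r)` is smooth; its
derivative at the point is surjective: it is enough that
`(x', y') ↦ (2 (x_src - x_tgt)(x'_src - x'_tgt) + 2 (y_src - y_tgt)(y'_src - y'_tgt))_e`
is onto `E → ℝ`; otherwise some nonzero functional `Σ w_e (·)_e` vanishes on the range
(`Submodule.exists_le_ker_of_lt_top`), and evaluating at `Pi.single v 1` gives a nonzero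
stress. `HasStrictFDerivAt.map_nhds_eq_of_surj` gives: for `r'` near `r` there is
`(x', y', r')` NEAR `(x, y, r)` with `F = (0, r')`; near the old point the non-edges keep
`(r u + r v)^2 < dist^2` (continuity, finitely many pairs). -/
def P_IFT : Prop :=
  ∀ (V : Type) [Fintype V] (G : SimpleGraph V) (x y r : V → ℝ), PackXY G x y r →
    Indep G x y → ∀ᶠ r' in 𝓝 r, ∃ x' y' : V → ℝ, PackXY G x' y' r'

/-- P_GEN. Algebraically independent vectors are dense in `V → ℝ`.
PROOF. Induction (e.g. over a Finset of indices, or by `Fintype.equivFin` and `Fin` induction):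
the reals algebraic over the countable field `ℚ(r_1, ..., r_k)` are countable, so every interval
contains a real transcendental over it; or: the zero set of a nonzero `MvPolynomial V ℚ` is closed
with empty interior and there are countably many of them (Baire). -/
def P_GEN : Prop :=
  ∀ (V : Type) [Fintype V] (r : V → ℝ) (s : Set (V → ℝ)), s ∈ 𝓝 r →
    ∃ r' ∈ s, AlgebraicIndependent ℚ r'

/-- Graphs built from an edge. `Built S G`: `G` is built, its vertices are `S`. -/
inductive Built {V : Type} [DecidableEq V] : Finset V → SimpleGraph V → Prop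
  | edge (a b : V) (h : a ≠ b) : Built {a, b} (SimpleGraph.fromEdgeSet {s(a, b)})
  | add (S : Finset V) (G : SimpleGraph V) (v a b : V) (hG : Built S G) (hv : v ∉ S)
      (ha : a ∈ S) (hb : b ∈ S) (hab : a ≠ b) :
      Built (insert v S) (G ⊔ SimpleGraph.fromEdgeSet {s(v, a), s(v, b)})
  | swap (S U : Finset V) (G B B' : SimpleGraph V) (h : Built S (G ⊔ B)) (h1 : Disjoint G B)
      (h2 : Disjoint G B') (hB : Built U B) (hB' : Built U B') : Built S (G ⊔ B')

/-- P_STAT (helper32). Built graphs in general position have no stress. -/
def P_STAT : Prop :=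
  ∀ (V : Type) [Fintype V] [DecidableEq V] (S : Finset V) (G : SimpleGraph V) (x y : V → ℝ),
    Built S G → GenPos x y → (∀ i j, i ≠ j → x i ≠ x j ∨ y i ≠ y j) → Indep G x y

end Pool.Agent.W2helper32.LP
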